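import Pool.Agent.H.MP_def192_nt.D

open Finset

namespace Pool.Agent.Results.MP_def192_nt.Mono

def Primitive (A : Finset ℕ) : Prop := ∀ a ∈ A, ∀ b ∈ A, a ∣ b → a = b

open Classical in
noncomputable def F (σ : ℝ) (n : ℕ) : ℝ :=
  ((Icc 1 n).powerset.filter Primitive).sup' ⟨∅, by simp [Primitive]⟩ fun A =>
    (∑ a ∈ A, (a : ℝ) ^ (-σ)) / ∑ m ∈ Icc 1 n, (m : ℝ) ^ (-σ)

theorem result (σ₁ σ₂ : ℝ) (h0 : 0 ≤ σ₁) (h12 : σ₁ < σ₂) (h1 : σ₂ ≤ 1) :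
    ∃ n₀ : ℕ, ∀ n > n₀, F σ₂ n < F σ₁ n := by
  open Pool.Agent.H.MP_def192_nt in
  have pos : ∀ σ n, 0 < n → 0 < S σ (Icc 1 n) := fun σ n hn => sum_pos (fun a ha => by
    have := (mem_Icc.1 ha).1; positivity) ⟨1, by simp; omega⟩
  open Pool.Agent.H.MP_def192_nt in
  have up : ∀ n, 0 < n → ∀ A ⊆ Icc 1 n, Prim A → S σ₁ A ≤ F σ₁ n * S σ₁ (Icc 1 n) := by
    intro n hn A hA pA
    classical
    rw [← div_le_iff₀ (pos _ n hn)]
    exact le_sup' (fun A : Finset ℕ => (∑ a ∈ A, (a : ℝ) ^ (-σ₁)) / ∑ m ∈ Icc 1 n, (m : ℝ) ^ (-σ₁))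
      (by simpa using ⟨hA, pA⟩)
  open Pool.Agent.H.MP_def192_nt in
  have lt : ∀ n c, 0 < n → (∀ A ⊆ Icc 1 n, Prim A → S σ₂ A < c * S σ₂ (Icc 1 n)) → F σ₂ n < c := by
    intro n c hn h
    unfold F
    rw [sup'_lt_iff]
    intro A hA
    simp only [mem_filter, mem_powerset] at hA
    exact (div_lt_iff₀ (pos _ n hn)).2 (h A hA.1 hA.2)
  rcases h1.eq_or_lt with rfl | h2
  · obtain ⟨n0, h⟩ := Pool.Agent.H.MP_def192_nt.main1 (half_pos (sub_pos.2 h12))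
    exact ⟨n0, fun n hn => (lt n _ (by omega) (h n hn.le)).trans_le
      (Pool.Agent.H.MP_def192_nt.half h0 h12 (by omega) (up n (by omega)))⟩
  · obtain ⟨n0, h⟩ := Pool.Agent.H.MP_def192_nt.main2 h0 h12 h2
    refine ⟨n0, fun n hn => lt n _ (by omega) (h n hn.le _ ?_ (up n (by omega)))⟩
    unfold F
    rw [sup'_le_iff]
    intro A hA
    simp only [mem_filter, mem_powerset] at hA
    exact (div_le_one (pos _ n (by omega))).2 (Pool.Agent.H.MP_def192_nt.S_mono _ hA.1)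

end Pool.Agent.Results.MP_def192_nt.Mono
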